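import Pool.Agent.Helper72_Cut.Assembly
import Pool.Agent.Helper77_Cut.Rate
import Pool.Agent.Helper77_Cut.Ladc

/-!
# Transposition walks induced by connected graphs need not have a sharp threshold

There is a sequence `G n` of simple graphs on `n` vertices, connected for `n ≥ 2`, such that the
lazy walks induced on the symmetric groups have no cutoff in total variation, for any choice of
`a n`, `b n` and of the profile `f`.
-/

namespace Pool.Agent.Results.MP_1dbb29_pr.NoCutoff

open Classical in
/-- The law after one more move of the lazy walk induced by `G`, if the present law is `μ`: a state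
is a permutation `σ` (`σ v` is the card in position `v`); with probability `1/2` nothing happens;
otherwise a uniform vertex `v` and a uniform neighbour `w` of `v` are chosen, and the cards in the
positions `v` and `w` are exchanged. -/
noncomputable def move {n : ℕ} (G : SimpleGraph (Fin n)) (μ : Equiv.Perm (Fin n) → ℝ) :
    Equiv.Perm (Fin n) → ℝ := fun σ =>
  (1 / 2) * μ σ + (1 / 2) * ∑ v : Fin n, ∑ w : Fin n,
    if G.Adj v w then (1 / (n : ℝ)) * (1 / (G.degree v : ℝ)) * μ (σ * Equiv.swap v w) else 0

/-- The law after `t` moves, started from the identity. -/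
noncomputable def law {n : ℕ} (G : SimpleGraph (Fin n)) (t : ℕ) : Equiv.Perm (Fin n) → ℝ :=
  (move G)^[t] (fun σ => if σ = 1 then 1 else 0)

/-- The total variation distance to the uniform distribution after `t` moves. -/
noncomputable def dist {n : ℕ} (G : SimpleGraph (Fin n)) (t : ℕ) : ℝ :=
  (1 / 2) * ∑ σ : Equiv.Perm (Fin n), |law G t σ - 1 / (n.factorial : ℝ)|

/-- The lazy walks induced by the graphs `G n` have a sharp threshold in total variation: they have
an `(a n, b n)` cutoff with some profile `f`. -/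
def SharpThreshold (G : (n : ℕ) → SimpleGraph (Fin n)) : Prop :=
  ∃ (a b : ℕ → ℝ) (f : ℝ → ℝ), (∀ n, 2 ≤ n → 0 < a n ∧ 0 < b n) ∧
    Filter.Tendsto (fun n => b n / a n) Filter.atTop (nhds 0) ∧
    (∀ c, 0 ≤ f c ∧ f c ≤ 1) ∧
    Filter.Tendsto f Filter.atTop (nhds 0) ∧ Filter.Tendsto f Filter.atBot (nhds 1) ∧
    ∀ c : ℝ, Filter.Tendsto (fun n => dist (G n) ⌊a n + c * b n⌋₊) Filter.atTop (nhds (f c))

theorem law_eq {n : ℕ} (G : SimpleGraph (Fin n)) (t : ℕ) : law G t = H72C.law G t := by
  induction t with
  | zero =>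
    funext σ
    unfold law H72C.law
    simp only [Function.iterate_zero, id]
  | succ t ih =>
    unfold law at ih ⊢
    rw [Function.iterate_succ_apply', ih]
    funext σ
    unfold move
    rw [H72C.law]

theorem dist_eq {n : ℕ} (G : SimpleGraph (Fin n)) (t : ℕ) : dist G t = H72C.tvd G t := by
  unfold dist H72C.tvd
  rw [law_eq]

theorem result : ∃ G : (n : ℕ) → SimpleGraph (Fin n),
    (∀ n, 2 ≤ n → (G n).Connected) ∧ ¬ SharpThreshold G := by
  obtain ⟨G, h1, h2⟩ := H72C.assembly H72C.H77.RATE
    (H72C.H77.LADC H72C.H77.RATE (H72C.TIME H72C.H77.RATE) H72C.Lad.LADS H72C.Lad.LADE)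
  refine ⟨G, h1, fun h => h2 ?_⟩
  obtain ⟨a, b, f, e1, e2, e3, e4, e5, e6⟩ := h
  refine ⟨a, b, f, e1, e2, e3, e4, e5, fun c => ?_⟩
  simpa only [dist_eq] using e6 c

end Pool.Agent.Results.MP_1dbb29_pr.NoCutoff
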